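import Mathlib
import Pool.Agent.H45.Lib.Ts3997aac3.Q276.PL.Stm

/-! Project PL (helper276), job UNI: from a unit to a solution of the Pell equation. -/

set_option autoImplicit false

namespace Pool.Agent.Q151.PL

open Polynomial Pool.Agent.W223.HZ Pool.Agent.W223.PL Pool.Agent.Q276.PL

theorem uni : StmtUNI := by
  intro D t u hD ht hu hs
  obtain ⟨a, ha3, hab, h2⟩ : ∃ a : ℤ, 3 ≤ a ∧ a ^ 2 - D * (t * u) ^ 2 = 4 ∧
      2 * a = t ^ 2 + D * u ^ 2 := by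
    have hu2 : 1 ≤ u ^ 2 := by nlinarith
    have hDu : 5 ≤ D * u ^ 2 := by nlinarith
    rcases hs with h | h
    · refine ⟨t ^ 2 - 2, by nlinarith, ?_, by linarith⟩
      have h1 : D * u ^ 2 = t ^ 2 - 4 := by linarith
      have h3 : D * (t * u) ^ 2 = t ^ 2 * (D * u ^ 2) := by ring
      rw [h3, h1]
      ring
    · refine ⟨t ^ 2 + 2, by nlinarith, ?_, by linarith⟩
      have h1 : D * u ^ 2 = t ^ 2 + 4 := by linarith
      have h3 : D * (t * u) ^ 2 = t ^ 2 * (D * u ^ 2) := by ring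
      rw [h3, h1]
      ring
  have hD0 : (0 : ℝ) ≤ (D : ℝ) := by exact_mod_cast (by omega : (0 : ℤ) ≤ D)
  have hs0 : 0 ≤ √(D : ℝ) := Real.sqrt_nonneg _
  have hs2 : √(D : ℝ) * √(D : ℝ) = D := Real.mul_self_sqrt hD0
  have hs1 : 1 ≤ √(D : ℝ) := by
    rw [Real.one_le_sqrt]
    exact_mod_cast (by omega : (1 : ℤ) ≤ D)
  set s := √(D : ℝ) with hsdef
  have ht1 : (1 : ℝ) ≤ t := by exact_mod_cast ht
  have hu1 : (1 : ℝ) ≤ u := by exact_mod_cast hu
  set ε : ℝ := ((t : ℝ) + u * s) / 2 with hε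
  have hε1 : 1 ≤ ε := by
    rw [hε]
    nlinarith [mul_le_mul hu1 hs1 zero_le_one (by linarith)]
  have h2' : 2 * (a : ℝ) = t ^ 2 + D * u ^ 2 := by exact_mod_cast h2
  have hab' : (a : ℝ) ^ 2 - D * (t * u) ^ 2 = 4 := by exact_mod_cast hab
  have hε2 : ε ^ 2 = ((a : ℝ) + t * u * s) / 2 := by
    rw [hε]
    have : (((t : ℝ) + u * s) / 2) ^ 2 = (t ^ 2 + (s * s) * u ^ 2 + 2 * t * u * s) / 4 := by ring
    rw [this, hs2, ← h2']
    ring
  have htu : 1 ≤ t * u := by nlinarith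
  rcases Int.even_or_odd' a with ⟨k, hk | hk⟩
  · -- `a = 2 k`
    have hk2 : 2 ≤ k := by omega
    have e1 : (2 * k) ^ 2 - D * (t * u) ^ 2 = 4 := by rw [← hk]; exact hab
    refine ⟨2 * k ^ 2 - 1, k * (t * u), by nlinarith, by nlinarith, ?_, ?_⟩
    · have h3 : D * (k * (t * u)) ^ 2 = k ^ 2 * (D * (t * u) ^ 2) := by ring
      have h4 : D * (t * u) ^ 2 = 4 * k ^ 2 - 4 := by linarith
      rw [h3, h4]
      ring
    · have hkr : (a : ℝ) = 2 * k := by exact_mod_cast hk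
      have h5 : ((2 * k ^ 2 - 1 : ℤ) : ℝ) + ((k * (t * u) : ℤ) : ℝ) * s = ε ^ 4 := by
        have e4 : ε ^ 4 = (ε ^ 2) ^ 2 := by ring
        rw [e4, hε2]
        push_cast
        have e5 : ((a : ℝ) + t * u * s) / 2 = k + t * u * s / 2 := by rw [hkr]; ring
        rw [e5]
        have e6 : (k + t * u * s / 2 : ℝ) ^ 2 = k ^ 2 + (t * u) ^ 2 * (s * s) / 4 + k * (t * u) * s := by
          ring
        rw [e6, hs2]
        rw [hkr] at hab'
        linarith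
      rw [h5]
      exact pow_le_pow_right₀ hε1 (by norm_num)
  · -- `a = 2 k + 1`
    have hk2 : 1 ≤ k := by omega
    have e1 : (2 * k + 1) ^ 2 - D * (t * u) ^ 2 = 4 := by rw [← hk]; exact hab
    refine ⟨(2 * k + 1) * (2 * k ^ 2 + 2 * k - 1), (t * u) * (2 * k ^ 2 + 2 * k),
      ?_, ?_, ?_, ?_⟩
    · have h3 : 3 ≤ 2 * k ^ 2 + 2 * k - 1 := by nlinarith
      nlinarith
    · have h3 : 4 ≤ 2 * k ^ 2 + 2 * k := by nlinarith
      nlinarith
    · have h3 : D * (t * u * (2 * k ^ 2 + 2 * k)) ^ 2 =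
          (2 * k ^ 2 + 2 * k) ^ 2 * (D * (t * u) ^ 2) := by ring
      have h4 : D * (t * u) ^ 2 = (2 * k + 1) ^ 2 - 4 := by linarith
      rw [h3, h4]
      ring
    · have hkr : (a : ℝ) = 2 * k + 1 := by exact_mod_cast hk
      have h5 : (((2 * k + 1) * (2 * k ^ 2 + 2 * k - 1) : ℤ) : ℝ) +
          (((t * u) * (2 * k ^ 2 + 2 * k) : ℤ) : ℝ) * s = ε ^ 6 := by
        have e4 : ε ^ 6 = (ε ^ 2) ^ 3 := by ring
        rw [e4, hε2]
        push_cast
        rw [hkr]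
        rw [hkr] at hab'
        have e6 : (((2 * k + 1 : ℝ) + t * u * s) / 2) ^ 3 =
            ((2 * k + 1) ^ 3 + 3 * (2 * k + 1) ^ 2 * (t * u) * s +
              3 * (2 * k + 1) * (t * u) ^ 2 * (s * s) + (t * u) ^ 3 * (s * s) * s) / 8 := by ring
        rw [e6, hs2]
        have e7 : (D : ℝ) * (t * u) ^ 2 = (2 * k + 1) ^ 2 - 4 := by linarith
        have e8 : (3 : ℝ) * (2 * k + 1) * (t * u) ^ 2 * D = 3 * (2 * k + 1) * (D * (t * u) ^ 2) := by
          ring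
        have e9 : ((t : ℝ) * u) ^ 3 * D * s = (t * u) * (D * (t * u) ^ 2) * s := by ring
        rw [e8, e9, e7]
        ring
      rw [h5]

end Pool.Agent.Q151.PL
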